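import Pool.Agent.Q55.Od.Defs
import Pool.Agent.Q8.KC.Defs

/-!
# The inverse of one power of the Lefschetz operator: definitions
-/

open CategoryTheory AlgebraicGeometry

universe u v

namespace Pool.Agent.Q8.OL

open Pool.Agent.H914 Pool.Agent.H914.VarClass Pool.Agent.H914.VarClass.Obj
  Pool.Agent.H914.WeilCohomology Pool.Agent.Y133.Half Pool.Agent.TH133.PW Pool.Agent.W537
  Pool.Agent.Q8.KC

section Alg

variable {K V : Type*} [Field K] [AddCommGroup V] [Module K V]

/-- Some element of the span of the operators `S` is inverse to `L : gr i → gr j`. -/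
def HasInverseIn (gr : ℕ → Submodule K V) (i j : ℕ) (L : V →ₗ[K] V) (S : Set (V →ₗ[K] V)) :
    Prop :=
  ∃ θ ∈ Submodule.span K S, InverseOn gr i j L θ

/-- Some element of the span of the operators `S` is inverse to `L : gr i → gr j` and acts as zero on
`gr l` for all `l ≠ j`. -/
def HasThetaIn (gr : ℕ → Submodule K V) (i j : ℕ) (L : V →ₗ[K] V) (S : Set (V →ₗ[K] V)) : Prop :=
  ∃ θ ∈ Submodule.span K S, InverseOn gr i j L θ ∧ SupportedIn gr j θ

end Alg

variable {k : Type u} [Field k] {𝒱 : VarClass k} {ops : CycleOps 𝒱}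

/-- The sum of the pull-backs of the divisor `D` on `X` under the projections of the product
`pw X n` of `n + 1` copies of `X`. -/
noncomputable def pwD (ops : CycleOps 𝒱) {X : 𝒱.Obj} (D : X.Cycles) : ∀ n, (pw X n).Cycles
  | 0 => D
  | n + 1 => ops.pull (fst (pw X n) X) (pwD ops D n) + ops.pull (snd (pw X n) X) D

/-- Some linear combination, with coefficients in the coefficient field of the theory, of cycles of
codimension `i` on `X × X` induces the inverse of the map
`D ^ (dim X - i) : H^i(X) → H^(2 dim X - i)(X)`. -/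
def InverseInSpan (W : WeilCohomology.{u, v} ops) (X : 𝒱.Obj) (D : X.Cycles) (i : ℕ) : Prop :=
  HasInverseIn (W.gr X) i (2 * X.dim - i) (lefPow W X D (X.dim - i)) (cycleOperators W X i)

/-- **The operator `θ_i` is in the span of the algebraic cycles**: some linear combination, with
coefficients in the coefficient field of the theory, of cycles of codimension `i` on `X × X` induces
the inverse of the map `D ^ (dim X - i) : H^i(X) → H^(2 dim X - i)(X)` and acts as zero on
`H^l(X)` for all `l ≠ 2 dim X - i`. -/
def ThetaInSpan (W : WeilCohomology.{u, v} ops) (X : 𝒱.Obj) (D : X.Cycles) (i : ℕ) : Prop :=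
  HasThetaIn (W.gr X) i (2 * X.dim - i) (lefPow W X D (X.dim - i)) (cycleOperators W X i)

/-- There are cycles `Λ 0, Λ 1, ...` on `X × X` which induce the inverses of the maps
`D ^ (dim X - i) : H^i(X) → H^(2 dim X - i)(X)` for all theories in which `X` has the same Betti
numbers as for `W`. -/
def OneSystem (W : WeilCohomology.{u, v} ops) (X : 𝒱.Obj) (D : X.Cycles) : Prop :=
  ∃ Λ : ℕ → (X.prod X).Cycles, ∀ W' : WeilCohomology.{u, v} ops,
    (∀ i, W'.betti X i = W.betti X i) → ∀ i ≤ X.dim, InducesInverse W' X D i (Λ i)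

/-- **The occurring degrees**: for all powers `pw X m` with at least four factors, if `θ_j` of the
power is in the span of the algebraic cycles, then so is `θ_i(X)` for all `i < dim X` for which
`H^i(X)` and `H^(j - i)(pw X (m - 1))` are not zero. -/
def OccursLaw (W : WeilCohomology.{u, v} ops) (X : 𝒱.Obj) (D : X.Cycles) : Prop :=
  ∀ m ≥ 3, ∀ j < (pw X m).dim, ThetaInSpan W (pw X m) (pwD ops D m) j →
    ∀ i < X.dim, OccursIn W X (pw X (m - 1)) j i → ThetaInSpan W X D i

/-- The following are equivalent: `θ_j` of the power `pw X m` is in the span of the algebraic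
cycles; it is induced by a cycle with rational coefficients; the conjecture B holds for `X`; the
conjecture B holds for all powers of `X`; one system of cycles induces the inverses for all theories
with the same Betti numbers of `X`. -/
def DecidesB (W : WeilCohomology.{u, v} ops) (X : 𝒱.Obj) (D : X.Cycles) (m j : ℕ) : Prop :=
  List.TFAE [ThetaInSpan W (pw X m) (pwD ops D m) j,
    ∃ z, InducesInverse W (pw X m) (pwD ops D m) j z,
    LefschetzB W X D, ∀ r, LefschetzB W (pw X r) (pwD ops D r), OneSystem W X D]

/-- **One degree decides**: for the power `pw X m` (`m + 1` factors), `m ≥ 2`, and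
`2 dim X - 1 ≤ j < dim (pw X m)` with nonzero `H^j(pw X m)`, and `j ≤ 2 dim X` if `m = 2`. -/
def OneDegreeDecides (W : WeilCohomology.{u, v} ops) (X : 𝒱.Obj) (D : X.Cycles) : Prop :=
  ∀ m ≥ 2, ∀ j < (pw X m).dim, 2 * X.dim ≤ j + 1 → (m = 2 → j ≤ 2 * X.dim) →
    W.gr (pw X m) j ≠ ⊥ → DecidesB W X D m j

/-- **The degrees of the same parity**: for `r ≥ 2`, `j < dim (pw X (a + r))`, `i < dim (pw X a)`
with `j - 2 r dim X ≤ i ≤ j` and `j - i` even, if the inverse in the degree `j` of `pw X (a + r)` is
in the span of the algebraic cycles (up to an arbitrary action on the other degrees), then so is the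
inverse in the degree `i` of `pw X a`. -/
def ParityLaw (W : WeilCohomology.{u, v} ops) (X : 𝒱.Obj) (D : X.Cycles) : Prop :=
  ∀ a, ∀ r ≥ 2, ∀ j < (pw X (a + r)).dim, ∀ i < (pw X a).dim, i ≤ j →
    j ≤ i + 2 * (r * X.dim) → Even (j - i) →
    InverseInSpan W (pw X (a + r)) (pwD ops D (a + r)) j → InverseInSpan W (pw X a) (pwD ops D a) i

/-- **Two neighbouring degrees decide**: for the power `pw X m`, `m ≥ 1`, and `j ≥ dim X - 2` with
`j + 1 < dim (pw X m)`, and `j + 1 ≤ dim X` if `m = 1`, the inverses in the degrees `j` and `j + 1`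
are in the span of the algebraic cycles (up to an arbitrary action on the other degrees) if and only
if the conjecture B holds for `X`, and if and only if it holds for all powers of `X`. -/
def TwoDegreesDecide (W : WeilCohomology.{u, v} ops) (X : 𝒱.Obj) (D : X.Cycles) : Prop :=
  ∀ m ≥ 1, ∀ j, j + 1 < (pw X m).dim → X.dim ≤ j + 2 → (m = 1 → j + 1 ≤ X.dim) →
    List.TFAE [
      InverseInSpan W (pw X m) (pwD ops D m) j ∧ InverseInSpan W (pw X m) (pwD ops D m) (j + 1),
      LefschetzB W X D, ∀ r, LefschetzB W (pw X r) (pwD ops D r)]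

end Pool.Agent.Q8.OL
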