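import Pool.Agent.Q8.OL.Ineq

/-!
# Removing a factor
-/

open CategoryTheory AlgebraicGeometry

universe u v

namespace Pool.Agent.Q8.OL

open Module
open Pool.Agent.H914 Pool.Agent.H914.VarClass Pool.Agent.H914.VarClass.Obj
  Pool.Agent.H914.WeilCohomology Pool.Agent.Y133.Half Pool.Agent.Q55.Fin Pool.Agent.Q8.KC
  Pool.Agent.TH133.PW Pool.Agent.W536.RR Pool.Agent.H281R3.HT

variable {k : Type u} [Field k] {𝒱 : VarClass k} {ops : CycleOps 𝒱}
  {W : WeilCohomology.{u, v} ops} {X Y : 𝒱.Obj}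

/-- A combination of algebraic correspondences is a left inverse of `B ^ s` on the cohomology of
degree `dim Y - s`. -/
def Inv (W : WeilCohomology.{u, v} ops) (Y : 𝒱.Obj) (B : Y.Cycles) (s : ℕ) : Prop :=
  ∃ θ, (linS W).Op Y Y θ ∧ ∀ x ∈ W.gr Y (Y.dim - s), θ ((LD W B ^ s) x) = x

lemma hl_inj {B : Y.Cycles} (hHL : HardLefschetz W Y B) {c : ℕ} (hc : c ≤ Y.dim) {a : W.H Y}
    (ha : a ∈ W.gr Y (Y.dim - c)) (h0 : (LD W B ^ c) a = 0) : a = 0 := by
  apply (hHL (Y.dim - c) (by omega)).1 a ha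
  rw [show Y.dim - (Y.dim - c) = c by omega]
  exact h0

lemma op_of_kop {φ : Module.End W.K (W.H X)} {d : ℤ} (h : φ ∈ KOp W X X d) :
    (linS W).Op X X φ := by
  refine Submodule.span_induction (p := fun φ _ => (linS W).Op X X φ) ?_ ?_ ?_ ?_ h
  · rintro _ ⟨q, hq, z, hz, rfl⟩
    exact ⟨_, cl_alg hz, rfl⟩
  · exact QS.Op.zero
  · intro a b _ _ ha hb
    exact ha.add hb
  · rintro t _ _ ⟨c, hc, rfl⟩
    exact ⟨t • c, Submodule.smul_mem _ _ hc, corr_smul W _ c⟩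

/-- The pointwise principle in one degree. -/
lemma inv_of_stable {B : Y.Cycles} (hB : Y.IsCyc 1 B) (hHL : HardLefschetz W Y B) {w : ℕ}
    (hw : w ≤ Y.dim) (h : ∀ N, IsStable W Y N →
      finrank W.K (N (Y.dim + w)) ≤ finrank W.K (N (Y.dim - w))) : Inv W Y B w := by
  have hinj : ∀ a ∈ W.gr Y (Y.dim - w), W.cl Y B ^ w * a = 0 → a = 0 := by
    intro a ha h0
    apply hl_inj hHL hw ha
    rw [LinearMap.pow_mulLeft]
    exact h0
  obtain ⟨φ, hφ, hφ'⟩ := uniform_preimage hB hw (fun y hy => by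
    apply preimage_of_finrank hB hw hinj hy
    have h1 := h _ (rad_isStable hy)
    have e1 : gen W Y (Y.dim + w) y (Y.dim + w) = orb W Y 0 y := gen_eq (by ring)
    have e2 : gen W Y (Y.dim + w) y (Y.dim - w) = orb W Y (-w) y :=
      gen_eq (by push_cast [hw]; ring)
    refine le_trans (Submodule.finrank_mono ?_) (h1.trans (Submodule.finrank_mono ?_))
    · intro x hx
      obtain ⟨hx1, hx2⟩ := mem_nPlus.1 hx
      refine mem_rad.2 ⟨by rw [e1]; exact hx1, fun i z hz => ?_⟩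
      by_cases hi : i = Y.dim - w
      · subst hi
        rw [e2] at hz
        exact hx2 z hz
      · exact W.tr_eq_zero (W.mul_mem (orb_le' (j := Y.dim + w) hy (by push_cast; ring) hx1)
          (gen_le hy i hz)) (by omega)
    · intro x hx
      obtain ⟨hx1, hx2⟩ := mem_rad.1 hx
      refine mem_nPlus.2 ⟨by rw [← e2]; exact hx1, fun z hz => ?_⟩
      exact hx2 (Y.dim + w) z (by rw [e1]; exact hz))
  refine ⟨φ, op_of_kop hφ, fun x hx => ?_⟩
  have hLx : (LD W B ^ w) x ∈ W.gr Y (Y.dim + w) := by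
    have h1 := LD_pow_mem (W := W) hB w (a := ((Y.dim - w : ℕ) : ℤ)) (x := x)
      (by rw [grZ_natCast]; exact hx)
    rwa [show ((Y.dim - w : ℕ) : ℤ) + 2 * w = ((Y.dim + w : ℕ) : ℤ) by omega, grZ_natCast] at h1
  have h1 := hφ' _ hLx
  have h2 := KOp.isHom hφ ((Y.dim + w : ℕ) : ℤ) _ (by rw [grZ_natCast]; exact hLx)
  rw [show ((Y.dim + w : ℕ) : ℤ) + 2 * (-(w : ℤ)) = ((Y.dim - w : ℕ) : ℤ) by omega,
    grZ_natCast] at h2
  rw [← sub_eq_zero]
  apply hinj _ (Submodule.sub_mem _ h2 hx)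
  rw [mul_sub, h1, LinearMap.pow_mulLeft, LinearMap.mulLeft_apply, sub_self]

/-- **Removing a factor.** -/
theorem Inv.cut {B : Y.Cycles} {D : X.Cycles} (hB : Y.IsCyc 1 B) (hD : X.IsCyc 1 D)
    (hHL : HardLefschetz W Y B) {e β : ℕ} {c : W.K} {F : ℕ → Module.End W.K (W.H X)}
    (mu : MU W X D e β c F) (heβ : e + β = X.dim) {s : ℕ} (hs : s ≤ (Y.prod X).dim)
    (h : Inv W (Y.prod X) (bs ops B D) s) {w : ℕ} (hw : w ≤ Y.dim) (h1 : s ≤ w + β)
    (h2 : w ≤ s + β) (h3 : β < s + w) (h4 : (s + w + β) % 2 = 0) : Inv W Y B w := by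
  obtain ⟨θ, hθ, hinv⟩ := h
  refine inv_of_stable hB hHL hw fun N hN => ?_
  have h5 := window_ineq hB hD mu heβ hθ hs hinv hN
  let f : ℤ → ℤ := fun w => (finrank W.K (grZ N ((Y.dim : ℤ) + w)) : ℤ) -
    finrank W.K (grZ N ((Y.dim : ℤ) - w))
  have hodd : ∀ w, f (-w) = -f w := by
    intro w
    show (finrank W.K (grZ N ((Y.dim : ℤ) + -w)) : ℤ) -
      finrank W.K (grZ N ((Y.dim : ℤ) - -w)) = -((finrank W.K (grZ N ((Y.dim : ℤ) + w)) : ℤ) -
      finrank W.K (grZ N ((Y.dim : ℤ) - w)))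
    rw [← sub_eq_add_neg, sub_neg_eq_add]
    ring
  have hpos : ∀ w, 0 ≤ w → 0 ≤ f w := by
    intro w hw0
    show 0 ≤ (finrank W.K (grZ N ((Y.dim : ℤ) + w)) : ℤ) -
      finrank W.K (grZ N ((Y.dim : ℤ) - w))
    lift w to ℕ using hw0
    by_cases hwd : w ≤ Y.dim
    · rw [show (Y.dim : ℤ) + w = ((Y.dim + w : ℕ) : ℤ) by push_cast; ring,
        show (Y.dim : ℤ) - w = ((Y.dim - w : ℕ) : ℤ) by omega, grZ_natCast, grZ_natCast,
        sub_nonneg, Nat.cast_le]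
      rw [← finrank_map_injOn (LD W B ^ w) (N (Y.dim - w))
        (fun x hx h0 => hl_inj hHL hwd (hN.le _ hx) h0)]
      apply Submodule.finrank_mono
      rintro _ ⟨x, hx, rfl⟩
      rw [LinearMap.pow_mulLeft]
      exact hN.kop (by omega) (pow_cl_mem hB w) hx
    · rw [grZ_of_neg (show (Y.dim : ℤ) - w < 0 by omega), finrank_bot]
      simp
  have hsum : ∑ q ∈ Finset.range (β + 1), f ((β : ℤ) + s - 2 * q) ≤ 0 := by
    show ∑ q ∈ Finset.range (β + 1),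
      ((finrank W.K (grZ N ((Y.dim : ℤ) + ((β : ℤ) + s - 2 * q))) : ℤ) -
        finrank W.K (grZ N ((Y.dim : ℤ) - ((β : ℤ) + s - 2 * q)))) ≤ 0
    rw [Finset.sum_sub_distrib, sub_nonpos]
    exact_mod_cast h5
  obtain ⟨q, hq⟩ : ∃ q : ℕ, β + s = w + 2 * q := ⟨(β + s - w) / 2, by omega⟩
  have h6 := window hodd hpos hsum (q := q) (by omega) (by omega)
  have h7 : (β : ℤ) + s - 2 * q = w := by omega
  rw [h7] at h6
  change (finrank W.K (grZ N ((Y.dim : ℤ) + w)) : ℤ) -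
    finrank W.K (grZ N ((Y.dim : ℤ) - w)) ≤ 0 at h6
  rw [show (Y.dim : ℤ) + w = ((Y.dim + w : ℕ) : ℤ) by push_cast; ring,
    show (Y.dim : ℤ) - w = ((Y.dim - w : ℕ) : ℤ) by omega, grZ_natCast, grZ_natCast,
    sub_nonpos, Nat.cast_le] at h6
  exact h6

end Pool.Agent.Q8.OL
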