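import Mathlib

/-!
# Linear algebra for the Lefschetz inverses of powers
-/

namespace Pool.Agent.Q8.OL

open Module

/-- An odd function, nonnegative on the nonnegative integers, with a nonpositive sum over a
symmetric window. -/
lemma window {f : ℤ → ℤ} (hodd : ∀ w, f (-w) = -f w) (hpos : ∀ w, 0 ≤ w → 0 ≤ f w) {β s : ℕ}
    (h : ∑ q ∈ Finset.range (β + 1), f ((β : ℤ) + s - 2 * q) ≤ 0) {q : ℕ} (hq : q ≤ β)
    (hqs : q < s) : f ((β : ℤ) + s - 2 * q) ≤ 0 := by
  rcases le_or_gt s β with hs | hs
  · obtain ⟨r, rfl⟩ : ∃ r, β = s + r := ⟨β - s, by omega⟩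
    rw [show s + r + 1 = s + (r + 1) by ring, Finset.sum_range_add] at h
    have h0 : ∑ x ∈ Finset.range (r + 1), f (((s + r : ℕ) : ℤ) + s - 2 * ((s + x : ℕ) : ℤ)) = 0 := by
      have h1 := Finset.sum_range_reflect
        (fun x => f (((s + r : ℕ) : ℤ) + s - 2 * ((s + x : ℕ) : ℤ))) (r + 1)
      have h2 : ∑ j ∈ Finset.range (r + 1),
          f (((s + r : ℕ) : ℤ) + s - 2 * ((s + (r + 1 - 1 - j) : ℕ) : ℤ)) =
          -∑ x ∈ Finset.range (r + 1), f (((s + r : ℕ) : ℤ) + s - 2 * ((s + x : ℕ) : ℤ)) := by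
        rw [← Finset.sum_neg_distrib]
        refine Finset.sum_congr rfl fun j hj => ?_
        rw [Finset.mem_range] at hj
        rw [← hodd]
        congr 1
        have : ((s + (r + 1 - 1 - j) : ℕ) : ℤ) = s + (r - j) := by omega
        rw [this]
        push_cast
        ring
      rw [h2] at h1
      linarith
    rw [h0, add_zero] at h
    refine le_trans ?_ h
    refine Finset.single_le_sum (f := fun x : ℕ => f (((s + r : ℕ) : ℤ) + s - 2 * x))
      (fun i hi => hpos _ ?_) (Finset.mem_range.2 hqs)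
    rw [Finset.mem_range] at hi
    push_cast
    omega
  · refine le_trans ?_ h
    refine Finset.single_le_sum (f := fun x : ℕ => f ((β : ℤ) + s - 2 * x))
      (fun i hi => hpos _ ?_) (Finset.mem_range.2 (by omega))
    rw [Finset.mem_range] at hi
    omega

variable {K V : Type*} [Field K] [AddCommGroup V] [Module K V]

/-- The dimension of a product of subspaces. -/
lemma finrank_pi_sub [FiniteDimensional K V] {n : ℕ} (p : Fin n → Submodule K V) :
    finrank K (Submodule.pi Set.univ p) = ∑ i, finrank K (p i) := by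
  let e : (Submodule.pi Set.univ p) ≃ₗ[K] (∀ i, p i) :=
    { toFun := fun x i => ⟨x.1 i, x.2 i (Set.mem_univ _)⟩
      map_add' := fun _ _ => rfl
      map_smul' := fun _ _ => rfl
      invFun := fun y => ⟨fun i => (y i : V), fun i _ => (y i).2⟩
      left_inv := fun _ => rfl
      right_inv := fun _ => rfl }
  rw [LinearEquiv.finrank_eq e, finrank_pi_fintype]

/-- A left inverse on the large spaces is injective on the small ones. -/
lemma finrank_le_of_retract [FiniteDimensional K V] {S T S' T' : Submodule K V} {t r : V →ₗ[K] V}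
    (ht : ∀ x ∈ S, t x ∈ T) (hr : ∀ x ∈ S, r (t x) = x) (hd : finrank K S = finrank K T)
    (hT' : T' ≤ T) (hr' : ∀ y ∈ T', r y ∈ S') : finrank K T' ≤ finrank K S' := by
  have h1 : S.map t = T := by
    apply Submodule.eq_of_le_of_finrank_le
    · rintro _ ⟨x, hx, rfl⟩
      exact ht x hx
    · rw [← hd, ← LinearMap.range_domRestrict, LinearMap.finrank_range_of_inj]
      intro x y hxy
      have h2 := congrArg r hxy
      rw [LinearMap.domRestrict_apply, LinearMap.domRestrict_apply, hr _ x.2, hr _ y.2] at h2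
      exact Subtype.ext h2
  have h3 : finrank K (T'.map r) = finrank K T' := by
    rw [← LinearMap.range_domRestrict, LinearMap.finrank_range_of_inj]
    intro x y hxy
    rw [LinearMap.domRestrict_apply, LinearMap.domRestrict_apply] at hxy
    obtain ⟨a, ha, hax⟩ : (x : V) ∈ S.map t := h1 ▸ hT' x.2
    obtain ⟨b, hb, hby⟩ : (y : V) ∈ S.map t := h1 ▸ hT' y.2
    apply Subtype.ext
    rw [← hax, ← hby, hr a ha, hr b hb] at hxy
    rw [← hax, ← hby, hxy]
  rw [← h3]
  apply Submodule.finrank_mono
  rintro _ ⟨y, hy, rfl⟩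
  exact hr' y hy

end Pool.Agent.Q8.OL
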