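import Pool.Agent.Q8.KC.Main
import Pool.Agent.TH133.PW.Orb
import Pool.Agent.Q8.OL.Lin

/-!
# Cutting down an inverse of a power of the Lefschetz operator
-/

open CategoryTheory AlgebraicGeometry

universe u v

namespace Pool.Agent.Q8.OL

open Module
open Pool.Agent.H914 Pool.Agent.H914.VarClass Pool.Agent.H914.VarClass.Obj
  Pool.Agent.H914.WeilCohomology Pool.Agent.Y133.Half Pool.Agent.Q55.Fin Pool.Agent.Q8.KC
  Pool.Agent.TH133.PW Pool.Agent.W536.RR Pool.Agent.H281R3.HT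

variable {k : Type u} [Field k] {𝒱 : VarClass k} {ops : CycleOps 𝒱}
  {W : WeilCohomology.{u, v} ops} {X Y : 𝒱.Obj}

/-- The cup product with the class of `D`. -/
noncomputable abbrev LD (W : WeilCohomology.{u, v} ops) {X : 𝒱.Obj} (D : X.Cycles) :
    Module.End W.K (W.H X) := LinearMap.mulLeft W.K (W.cl X D)

/-- The sum of the pull-backs of the divisors. -/
noncomputable abbrev bs (ops : CycleOps 𝒱) {Y X : 𝒱.Obj} (B : Y.Cycles) (D : X.Cycles) :
    (Y.prod X).Cycles := ops.pull (fst Y X) B + ops.pull (snd Y X) D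

lemma bs_cyc {B : Y.Cycles} {D : X.Cycles} (hB : Y.IsCyc 1 B) (hD : X.IsCyc 1 D) :
    (Y.prod X).IsCyc 1 (bs ops B D) :=
  SmVar.IsCyc.add (ops.pull_mem _ hB) (ops.pull_mem _ hD)

lemma LD_bs {B : Y.Cycles} {D : X.Cycles} (hD : X.IsCyc 1 D) : LD W (bs ops B D) =
    extOp W (LD W B) 1 + extOp W 1 (LD W D) := by
  apply ext_kunneth_lin
  intro a b
  rw [LinearMap.add_apply, extOp_tmul, extOp_tmul, Module.End.one_apply, Module.End.one_apply,
    LinearMap.mulLeft_apply, LinearMap.mulLeft_apply, LinearMap.mulLeft_apply, map_add,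
    W.cl_pull, W.cl_pull, add_mul, ← mul_assoc, ← map_mul, ← mul_assoc (W.map (snd Y X) _),
    W.even_comm (W.map_mem _ (W.cl_mem hD)) (W.map (fst Y X) a), mul_assoc (W.map (fst Y X) a),
    ← map_mul]

lemma extOp_pow_left (f : Module.End W.K (W.H Y)) (n : ℕ) :
    extOp W f (1 : Module.End W.K (W.H X)) ^ n = extOp W (f ^ n) 1 := by
  induction n with
  | zero => rw [pow_zero, pow_zero, extOp_one]
  | succ n ih => rw [pow_succ, ih, extOp_mul, mul_one, pow_succ]

lemma extOp_pow_right (f : Module.End W.K (W.H X)) (n : ℕ) :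
    extOp W (1 : Module.End W.K (W.H Y)) f ^ n = extOp W 1 (f ^ n) := by
  induction n with
  | zero => rw [pow_zero, pow_zero, extOp_one]
  | succ n ih => rw [pow_succ, ih, extOp_mul, mul_one, pow_succ]

/-- The powers of the Lefschetz operator of a product. -/
lemma LD_bs_pow {B : Y.Cycles} {D : X.Cycles} (hD : X.IsCyc 1 D) (s : ℕ) :
    LD W (bs ops B D) ^ s = ∑ t ∈ Finset.range (s + 1),
      (s.choose t : W.K) • extOp W (LD W B ^ t) (LD W D ^ (s - t)) := by
  have hc : Commute (extOp W (LD W B) (1 : Module.End W.K (W.H X)))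
      (extOp W (1 : Module.End W.K (W.H Y)) (LD W D)) := by
    rw [Commute, SemiconjBy, extOp_mul, extOp_mul, mul_one, one_mul, mul_one, one_mul]
  rw [LD_bs hD, hc.add_pow]
  refine Finset.sum_congr rfl fun t _ => ?_
  rw [extOp_pow_left, extOp_pow_right, extOp_mul, mul_one, one_mul, ← nsmul_eq_mul',
    Nat.cast_smul_eq_nsmul]

/-! ### Stable families -/

/-- The operators of the system map a stable family to itself. -/
lemma stable_op {N : ℕ → Submodule W.K (W.H Y)} (hN : IsStable W Y N)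
    {φ : Module.End W.K (W.H Y)} (hφ : (linS W).Op Y Y φ) {i : ℕ} (j : ℕ) {x : W.H Y}
    (hx : x ∈ N i) : proj (W.isInternal Y) j (φ x) ∈ N j := by
  obtain ⟨c, hc, rfl⟩ := hφ
  have hc' : c ∈ algSpan W (Y.prod Y) := hc
  refine algSpan_induction (p := fun c => proj (W.isInternal Y) j (W.corr c x) ∈ N j)
    ?_ ?_ ?_ ?_ hc'
  · rw [corr_zero, LinearMap.zero_apply, map_zero]; exact Submodule.zero_mem _
  · intro a b ha hb
    rw [corr_add, LinearMap.add_apply, map_add]
    exact Submodule.add_mem _ ha hb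
  · intro t a ha
    rw [corr_smul, LinearMap.smul_apply, map_smul]
    exact Submodule.smul_mem _ _ ha
  · intro p z hz
    have h1 := W.push_mem (snd Y Y) (W.mul_mem (W.cl_mem hz) (W.map_mem (fst Y Y) (hN.le i hx)))
    rw [← corr_apply] at h1
    have hd : (Y.prod Y).dim = Y.dim + Y.dim := dim_prod _ _
    by_cases hneg : ((2 * p + i : ℕ) : ℤ) + 2 * ((Y.dim : ℤ) - (Y.prod Y).dim) < 0
    · rw [grZ_of_neg hneg] at h1
      rw [(Submodule.mem_bot _).1 h1, map_zero]
      exact Submodule.zero_mem _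
    · obtain ⟨n, hn⟩ : ∃ n : ℕ, (n : ℤ) =
          ((2 * p + i : ℕ) : ℤ) + 2 * ((Y.dim : ℤ) - (Y.prod Y).dim) :=
        ⟨(((2 * p + i : ℕ) : ℤ) + 2 * ((Y.dim : ℤ) - (Y.prod Y).dim)).toNat, by omega⟩
      rw [← hn, grZ_natCast] at h1
      by_cases hj : n = j
      · subst hj
        rw [proj_same _ h1]
        exact hN.stable (p := p) (by rw [hd] at hn; push_cast at hn; omega) _ ⟨z, hz, rfl⟩ x hx
      · rw [proj_ne _ h1 hj]
        exact Submodule.zero_mem _

/-- The projection onto the integer degree `a`. -/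
noncomputable def pZ (W : WeilCohomology.{u, v} ops) (Y : 𝒱.Obj) (a : ℤ) :
    Module.End W.K (W.H Y) := if 0 ≤ a then proj (W.isInternal Y) a.toNat else 0

lemma pZ_cast (a : ℕ) : pZ W Y (a : ℤ) = proj (W.isInternal Y) a := by simp [pZ]

lemma pZ_neg {a : ℤ} (h : a < 0) : pZ W Y a = 0 := by rw [pZ, if_neg (by omega)]

lemma pZ_same {a : ℤ} {x : W.H Y} (hx : x ∈ grZ (W.gr Y) a) : pZ W Y a x = x := by
  by_cases h : a < 0
  · rw [grZ_of_neg h] at hx
    rw [(Submodule.mem_bot _).1 hx, map_zero]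
  · lift a to ℕ using (by omega)
    rw [grZ_natCast] at hx
    rw [pZ_cast, proj_same _ hx]

lemma pZ_mem (a : ℤ) (x : W.H Y) : pZ W Y a x ∈ grZ (W.gr Y) a := by
  by_cases h : a < 0
  · rw [pZ_neg h]
    exact Submodule.zero_mem _
  · lift a to ℕ using (by omega)
    rw [grZ_natCast, pZ_cast]
    exact proj_mem _ _ _

lemma stable_opZ {N : ℕ → Submodule W.K (W.H Y)} (hN : IsStable W Y N)
    {φ : Module.End W.K (W.H Y)} (hφ : (linS W).Op Y Y φ) {a : ℤ} (b : ℤ) {x : W.H Y}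
    (hx : x ∈ grZ N a) : pZ W Y b (φ x) ∈ grZ N b := by
  by_cases ha : a < 0
  · rw [grZ_of_neg ha] at hx
    rw [(Submodule.mem_bot _).1 hx, map_zero, map_zero]
    exact Submodule.zero_mem _
  · lift a to ℕ using (by omega)
    rw [grZ_natCast] at hx
    by_cases hb : b < 0
    · rw [pZ_neg hb]
      exact Submodule.zero_mem _
    · lift b to ℕ using (by omega)
      rw [grZ_natCast, pZ_cast]
      exact stable_op hN hφ b hx

lemma grZ_mono {N : ℕ → Submodule W.K (W.H Y)} (hN : IsStable W Y N) (a : ℤ) :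
    grZ N a ≤ grZ (W.gr Y) a := by
  by_cases ha : a < 0
  · rw [grZ_of_neg ha]
    exact bot_le
  · lift a to ℕ using (by omega)
    rw [grZ_natCast, grZ_natCast]
    exact hN.le a

/-- Poincare duality for integer degrees. -/
lemma finrank_grZ (a : ℤ) : finrank W.K (grZ (W.gr Y) a) =
    finrank W.K (grZ (W.gr Y) (2 * Y.dim - a)) := by
  by_cases ha : a < 0
  · obtain ⟨b, hb⟩ : ∃ b : ℕ, (b : ℤ) = 2 * Y.dim - a := ⟨(2 * Y.dim - a).toNat, by omega⟩
    rw [grZ_of_neg ha, ← hb, grZ_natCast, W.gr_eq_bot Y b (by omega)]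
  · lift a to ℕ using (by omega)
    rw [grZ_natCast]
    by_cases h : a ≤ 2 * Y.dim
    · rw [show (2 * (Y.dim : ℤ) - a) = ((2 * Y.dim - a : ℕ) : ℤ) by omega, grZ_natCast]
      exact Pool.Agent.TH132.A.finrank_gr_eq h
    · rw [grZ_of_neg (by omega), W.gr_eq_bot Y a (by omega)]

lemma LD_pow_mem {B : Y.Cycles} (hB : Y.IsCyc 1 B) (t : ℕ) {a : ℤ} {x : W.H Y}
    (hx : x ∈ grZ (W.gr Y) a) : (LD W B ^ t) x ∈ grZ (W.gr Y) (a + 2 * t) := by
  by_cases ha : a < 0
  · rw [grZ_of_neg ha] at hx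
    rw [(Submodule.mem_bot _).1 hx, map_zero]
    exact Submodule.zero_mem _
  · lift a to ℕ using (by omega)
    rw [grZ_natCast] at hx
    rw [LinearMap.pow_mulLeft, LinearMap.mulLeft_apply,
      show (a : ℤ) + 2 * t = ((2 * t + a : ℕ) : ℤ) by push_cast; ring, grZ_natCast]
    exact W.mul_mem (pow_mem' (W.cl_mem hB) t) hx

end Pool.Agent.Q8.OL
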