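import Pool.Agent.Q8.OL.Win

/-!
# The window inequality: the proof
-/

open CategoryTheory AlgebraicGeometry

universe u v

namespace Pool.Agent.Q8.OL

open Module
open Pool.Agent.H914 Pool.Agent.H914.VarClass Pool.Agent.H914.VarClass.Obj
  Pool.Agent.H914.WeilCohomology Pool.Agent.Y133.Half Pool.Agent.Q55.Fin Pool.Agent.Q8.KC
  Pool.Agent.TH133.PW Pool.Agent.W536.RR Pool.Agent.H281R3.HT

lemma sum_fin_ite {M : Type*} [AddCommMonoid M] {β : ℕ} {g : ℕ → M} (hg : ∀ q, β < q → g q = 0)
    {l s t : ℕ} (ht : t ≤ s) :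
    ∑ q : Fin (β + 1), (if l + s = q + t then g q else 0) = g (l + (s - t)) := by
  rw [Fin.sum_univ_eq_sum_range (fun q => if l + s = q + t then g q else 0) (β + 1)]
  have h1 : ∀ q, (l + s = q + t) = (q = l + (s - t)) := by
    intro q
    apply propext
    omega
  simp only [h1]
  rw [Finset.sum_ite_eq']
  split_ifs with h
  · rfl
  · rw [Finset.mem_range] at h
    exact (hg _ (by omega)).symm

variable {k : Type u} [Field k] {𝒱 : VarClass k} {ops : CycleOps 𝒱}
  {W : WeilCohomology.{u, v} ops} {X Y : 𝒱.Obj}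

/-- **The window inequality.** -/
theorem window_ineq {B : Y.Cycles} {D : X.Cycles} (hB : Y.IsCyc 1 B) (hD : X.IsCyc 1 D) {e β : ℕ}
    {c : W.K} {F : ℕ → Module.End W.K (W.H X)} (mu : MU W X D e β c F) (heβ : e + β = X.dim)
    {θ : Module.End W.K (W.H (Y.prod X))} (hθ : (linS W).Op (Y.prod X) (Y.prod X) θ) {s : ℕ}
    (hs : s ≤ (Y.prod X).dim)
    (hinv : ∀ x ∈ W.gr (Y.prod X) ((Y.prod X).dim - s), θ ((LD W (bs ops B D) ^ s) x) = x)
    {N : ℕ → Submodule W.K (W.H Y)} (hN : IsStable W Y N) :
    ∑ q ∈ Finset.range (β + 1), finrank W.K (grZ N ((Y.dim : ℤ) + (β + s - 2 * q))) ≤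
      ∑ l ∈ Finset.range (β + 1), finrank W.K (grZ N ((Y.dim : ℤ) - (β + s - 2 * l))) := by
  have hdim : (Y.prod X).dim = Y.dim + X.dim := dim_prod _ _
  obtain ⟨P, hPop, hPt, hP0⟩ := exists_parts (Y := Y) hD mu hθ
  -- the degrees
  let a : ℕ → ℤ := fun l => (Y.dim : ℤ) + β - s - 2 * l
  let b : ℕ → ℤ := fun q => (Y.dim : ℤ) + (β + s - 2 * q)
  have hkey : ∀ l ≤ β, ∀ l' ≤ β, ∑ t ∈ Finset.range (s + 1),
      (s.choose t : W.K) • (P (l + (s - t)) l' * (LD W B ^ t * pZ W Y (a l))) =
        if l = l' then c • pZ W Y (a l) else 0 := by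
    intro l hl l' hl'
    exact key hB hD mu hPt hinv hl hl' (by
      show (Y.dim : ℤ) + β - s - 2 * l + (e + 2 * l) = _
      omega)
  let V := Fin (β + 1) → W.H Y
  let tt : V →ₗ[W.K] V :=
    { toFun := fun x q => ∑ t ∈ Finset.range (s + 1), ∑ l : Fin (β + 1),
        if (l : ℕ) + s = q + t then (s.choose t : W.K) • (LD W B ^ t) (x l) else 0
      map_add' := by
        intro x y
        funext q
        rw [Pi.add_apply, ← Finset.sum_add_distrib]
        refine Finset.sum_congr rfl fun t _ => ?_
        rw [← Finset.sum_add_distrib]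
        refine Finset.sum_congr rfl fun l _ => ?_
        split_ifs
        · rw [Pi.add_apply, map_add, smul_add]
        · rw [add_zero]
      map_smul' := by
        intro r x
        funext q
        rw [Pi.smul_apply, Finset.smul_sum]
        refine Finset.sum_congr rfl fun t _ => ?_
        rw [Finset.smul_sum]
        refine Finset.sum_congr rfl fun l _ => ?_
        split_ifs
        · rw [Pi.smul_apply, map_smul, smul_comm]
          rfl
        · rw [smul_zero] }
  let rr : V →ₗ[W.K] V :=
    { toFun := fun y l => c⁻¹ • pZ W Y (a l) (∑ q : Fin (β + 1), P q l (y q))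
      map_add' := by
        intro x y
        funext l
        show c⁻¹ • pZ W Y (a l) (∑ q : Fin (β + 1), P q l (x q + y q)) =
          c⁻¹ • pZ W Y (a l) (∑ q : Fin (β + 1), P q l (x q)) +
            c⁻¹ • pZ W Y (a l) (∑ q : Fin (β + 1), P q l (y q))
        simp only [map_add, Finset.sum_add_distrib, smul_add]
      map_smul' := by
        intro r x
        funext l
        show c⁻¹ • pZ W Y (a l) (∑ q : Fin (β + 1), P q l (r • x q)) =
          r • c⁻¹ • pZ W Y (a l) (∑ q : Fin (β + 1), P q l (x q))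
        simp only [map_smul, ← Finset.smul_sum]
        rw [smul_comm] }
  have htt : ∀ (x : V) (q : Fin (β + 1)), tt x q = ∑ t ∈ Finset.range (s + 1),
      ∑ l : Fin (β + 1), if (l : ℕ) + s = q + t then
        (s.choose t : W.K) • (LD W B ^ t) (x l) else 0 := fun _ _ => rfl
  have hrr : ∀ (y : V) (l : Fin (β + 1)), rr y l = c⁻¹ • pZ W Y (a l)
      (∑ q : Fin (β + 1), P q l (y q)) := fun _ _ => rfl
  let S : (ℕ → Submodule W.K (W.H Y)) → Submodule W.K V := fun N =>
    Submodule.pi Set.univ fun l : Fin (β + 1) => grZ N (a l)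
  let T : (ℕ → Submodule W.K (W.H Y)) → Submodule W.K V := fun N =>
    Submodule.pi Set.univ fun q : Fin (β + 1) => grZ N (b q)
  have h1 : ∀ x ∈ S (W.gr Y), tt x ∈ T (W.gr Y) := by
    intro x hx q _
    rw [htt]
    refine Submodule.sum_mem _ fun t _ => Submodule.sum_mem _ fun l _ => ?_
    split_ifs with h
    · refine Submodule.smul_mem _ _ ?_
      have h2 := LD_pow_mem hB t (hx l (Set.mem_univ _))
      rwa [show a l + 2 * t = b q by
        show (Y.dim : ℤ) + β - s - 2 * ((l : ℕ) : ℤ) + 2 * t = Y.dim + (β + s - 2 * ((q : ℕ) : ℤ))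
        have h' : (((l : ℕ) : ℤ)) + s = ((q : ℕ) : ℤ) + t := by exact_mod_cast h
        linarith] at h2
    · exact Submodule.zero_mem _
  have h2 : ∀ x ∈ S (W.gr Y), rr (tt x) = x := by
    intro x hx
    funext l'
    rw [hrr]
    have e1 : ∑ q : Fin (β + 1), P q l' (tt x q) = c • x l' := by
      have e2 : ∀ q : Fin (β + 1), P q l' (tt x q) = ∑ l : Fin (β + 1),
          ∑ t ∈ Finset.range (s + 1), if (l : ℕ) + s = q + t then
            (s.choose t : W.K) • P q l' ((LD W B ^ t) (x l)) else 0 := by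
        intro q
        rw [htt, map_sum, Finset.sum_comm]
        refine Finset.sum_congr rfl fun t _ => ?_
        rw [map_sum]
        refine Finset.sum_congr rfl fun l _ => ?_
        split_ifs
        · rw [map_smul]
        · rw [map_zero]
      simp only [e2]
      rw [Finset.sum_comm]
      have e3 : ∀ l : Fin (β + 1), ∑ q : Fin (β + 1), ∑ t ∈ Finset.range (s + 1),
          (if (l : ℕ) + s = q + t then (s.choose t : W.K) • P q l' ((LD W B ^ t) (x l)) else 0) =
          if l = l' then c • x l else 0 := by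
        intro l
        have hl := l.2
        have hl' := l'.2
        have e4 := congrArg (fun f : Module.End W.K (W.H Y) => f (x l))
          (hkey l (by omega) l' (by omega))
        simp only [LinearMap.sum_apply, LinearMap.smul_apply, Module.End.mul_apply,
          pZ_same (hx l (Set.mem_univ _))] at e4
        rw [Finset.sum_comm]
        have e5 : ∀ t ∈ Finset.range (s + 1), ∑ q : Fin (β + 1),
            (if (l : ℕ) + s = q + t then (s.choose t : W.K) • P q l' ((LD W B ^ t) (x l)) else 0) =
            (s.choose t : W.K) • P (l + (s - t)) l' ((LD W B ^ t) (x l)) := by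
          intro t ht
          rw [Finset.mem_range] at ht
          exact sum_fin_ite (g := fun q => (s.choose t : W.K) • P q l' ((LD W B ^ t) (x l)))
            (fun q hq => by
              beta_reduce
              rw [hP0 q hq l' (by omega), LinearMap.zero_apply, smul_zero]) (by omega)
        rw [Finset.sum_congr rfl e5, e4]
        by_cases h : l = l'
        · subst h
          rw [if_pos rfl, if_pos rfl, LinearMap.smul_apply, pZ_same (hx l (Set.mem_univ _))]
        · rw [if_neg h, if_neg (fun h' => h (Fin.ext h')), LinearMap.zero_apply]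
      simp only [e3]
      rw [Finset.sum_ite_eq' Finset.univ l', if_pos (Finset.mem_univ _)]
    rw [e1, map_smul, smul_smul, inv_mul_cancel₀ mu.ne, one_smul,
      pZ_same (hx l' (Set.mem_univ _))]
  have h3 : ∀ y ∈ T N, rr y ∈ S N := by
    intro y hy l _
    rw [hrr, map_sum]
    refine Submodule.smul_mem _ _ (Submodule.sum_mem _ fun q _ => ?_)
    have hl := l.2
    exact stable_opZ hN (hPop q l (by omega)) _ (hy q (Set.mem_univ _))
  have h4 : T N ≤ T (W.gr Y) := fun y hy q hq => grZ_mono hN _ (hy q hq)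
  have hS : ∀ N, finrank W.K (S N) = ∑ l ∈ Finset.range (β + 1), finrank W.K (grZ N (a l)) := by
    intro N
    rw [finrank_pi_sub, Fin.sum_univ_eq_sum_range (fun l => finrank W.K (grZ N (a l))) (β + 1)]
  have hT : ∀ N, finrank W.K (T N) = ∑ q ∈ Finset.range (β + 1), finrank W.K (grZ N (b q)) := by
    intro N
    rw [finrank_pi_sub, Fin.sum_univ_eq_sum_range (fun q => finrank W.K (grZ N (b q))) (β + 1)]
  have hrefl : ∀ N : ℕ → Submodule W.K (W.H Y), ∑ l ∈ Finset.range (β + 1),
      finrank W.K (grZ N (a l)) = ∑ l ∈ Finset.range (β + 1),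
        finrank W.K (grZ N ((Y.dim : ℤ) - (β + s - 2 * l))) := by
    intro N
    rw [← Finset.sum_range_reflect]
    refine Finset.sum_congr rfl fun j hj => ?_
    rw [Finset.mem_range] at hj
    have hj' : a (β + 1 - 1 - j) = (Y.dim : ℤ) - (β + s - 2 * j) := by
      show (Y.dim : ℤ) + β - s - 2 * ((β + 1 - 1 - j : ℕ) : ℤ) = _
      omega
    rw [hj']
  have h5 : finrank W.K (S (W.gr Y)) = finrank W.K (T (W.gr Y)) := by
    rw [hS, hT, hrefl]
    refine Finset.sum_congr rfl fun l _ => ?_
    have hl : 2 * (Y.dim : ℤ) - (Y.dim - (β + s - 2 * l)) = b l := by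
      show _ = (Y.dim : ℤ) + (β + s - 2 * l)
      ring
    rw [finrank_grZ, hl]
  have h6 := finrank_le_of_retract h1 h2 h5 h4 h3
  rwa [hS, hT, hrefl] at h6

end Pool.Agent.Q8.OL
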