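import Pool.Agent.Q8.OL.Units
import Pool.Agent.Q8.OL.Defs
import Pool.Agent.Q55.Oc.Main

/-!
# The inverses on the powers of a variety
-/

open CategoryTheory AlgebraicGeometry

universe u v

namespace Pool.Agent.Q8.OL

open Module
open Pool.Agent.H914 Pool.Agent.H914.VarClass Pool.Agent.H914.VarClass.Obj
  Pool.Agent.H914.WeilCohomology Pool.Agent.Y133.Half Pool.Agent.Q55.Fin Pool.Agent.Q8.KC
  Pool.Agent.TH133.PW Pool.Agent.W536.RR Pool.Agent.H281R3.HT Pool.Agent.W550.B

variable {k : Type u} [Field k] {𝒱 : VarClass k} {ops : CycleOps 𝒱}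
  {W : WeilCohomology.{u, v} ops} {X Y : 𝒱.Obj}

lemma lef_pw {D : X.Cycles} (hX : IsLefschetzDivisor W X D) : ∀ n,
    IsLefschetzDivisor W (pw X n) (pwD ops D n)
  | 0 => hX
  | n + 1 => Pool.Agent.Q55.Oc.isLefschetzDivisor_prod (lef_pw hX n) hX

lemma lefschetzB_pw {D : X.Cycles} (hX : IsLefschetzDivisor W X D) (h : LefschetzB W X D) : ∀ n,
    LefschetzB W (pw X n) (pwD ops D n)
  | 0 => h
  | n + 1 => Pool.Agent.Q55.Oc.lefschetzB_prod (lef_pw hX n) hX (lefschetzB_pw hX h n) h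

/-- Removing a factor, with the powers of the divisor. -/
theorem Inv.cut_even [Nontrivial (W.H X)] {B : Y.Cycles} {D : X.Cycles}
    (hY : IsLefschetzDivisor W Y B) (hX : IsLefschetzDivisor W X D) {s : ℕ}
    (hs : s ≤ Y.dim + X.dim) (h : Inv W (Y.prod X) (bs ops B D) s) {w : ℕ} (hw : w ≤ Y.dim)
    (h1 : s ≤ w + X.dim) (h2 : w ≤ s + X.dim) (h3 : X.dim < s + w)
    (h4 : (s + w + X.dim) % 2 = 0) : Inv W Y B w :=
  Inv.cut hY.1 hX.1 hY.2 (mu_even hX.1 (tr_top_ne hX.2)) (by omega) (by rw [dim_prod]; exact hs) h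
    hw h1 h2 h3 h4

/-- Removing two or more factors. -/
theorem Inv.pw [Nontrivial (W.H X)] {D : X.Cycles} (hX : IsLefschetzDivisor W X D) (a : ℕ) :
    ∀ r, 2 ≤ r → ∀ s w, 1 ≤ s → s ≤ (a + r + 1) * X.dim → 1 ≤ w → w ≤ (a + 1) * X.dim →
      s ≤ w + r * X.dim → w ≤ s + r * X.dim → (s + w + r * X.dim) % 2 = 0 →
      Inv W (pw X (a + r)) (pwD ops D (a + r)) s → Inv W (pw X a) (pwD ops D a) w := by
  intro r hr
  induction r, hr using Nat.le_induction with
  | base =>
    intro s w hs1 hs hw1 hw h1 h2 h4 h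
    have e1 : (a + 2 + 1) * X.dim = (a + 1) * X.dim + 2 * X.dim := by ring
    have e2 : (a + 1 + 1) * X.dim = (a + 1) * X.dim + X.dim := by ring
    have d0 := dim_pw X a
    have d1 := dim_pw X (a + 1)
    rw [e1] at hs
    rw [e2] at d1
    have h5 : Inv W (Y133.Half.pw X (a + 1)) (pwD ops D (a + 1)) (X.dim + min s w) := by
      refine Inv.cut_even (lef_pw hX (a + 1)) hX (s := s) (by omega) h (by omega) ?_ ?_ ?_ ?_
      · omega
      · omega
      · omega
      · rcases le_total s w with hsw | hsw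
        · rw [min_eq_left hsw]; omega
        · rw [min_eq_right hsw]; omega
    refine Inv.cut_even (lef_pw hX a) hX (s := X.dim + min s w) (by omega) h5 (by omega) ?_ ?_ ?_ ?_
    · omega
    · omega
    · omega
    · rcases le_total s w with hsw | hsw
      · rw [min_eq_left hsw]; omega
      · rw [min_eq_right hsw]; omega
  | succ r hr ih =>
    intro s w hs1 hs hw1 hw h1 h2 h4 h
    have e1 : (a + (r + 1) + 1) * X.dim = (a + 1) * X.dim + r * X.dim + X.dim := by ring
    have e2 : (a + r + 1) * X.dim = (a + 1) * X.dim + r * X.dim := by ring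
    have e3 : (r + 1) * X.dim = r * X.dim + X.dim := by ring
    have e4 : 2 * X.dim ≤ r * X.dim := Nat.mul_le_mul_right _ hr
    have d1 := dim_pw X (a + r)
    have d2 : X.dim ≤ (a + 1) * X.dim := Nat.le_mul_of_pos_left _ (Nat.succ_pos a)
    rw [e1] at hs
    rw [e2] at d1 ih
    rw [e3] at h1 h2 h4
    obtain ⟨w1, g1, g2, g3, g4, g5, g6, g7, g8, g9⟩ : ∃ w1, 1 ≤ w1 ∧
        w1 ≤ (a + 1) * X.dim + r * X.dim ∧ s ≤ w1 + X.dim ∧ w1 ≤ s + X.dim ∧ X.dim < s + w1 ∧
        (s + w1 + X.dim) % 2 = 0 ∧ w1 ≤ w + r * X.dim ∧ w ≤ w1 + r * X.dim ∧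
        (w1 + w + r * X.dim) % 2 = 0 := by
      by_cases hA : s ≤ w
      · exact ⟨s + X.dim, by omega, by omega, by omega, by omega, by omega, by omega, by omega,
          by omega, by omega⟩
      by_cases hB : X.dim < s
      · exact ⟨s - X.dim, by omega, by omega, by omega, by omega, by omega, by omega, by omega,
          by omega, by omega⟩
      · exact ⟨s + X.dim, by omega, by omega, by omega, by omega, by omega, by omega, by omega,
          by omega, by omega⟩
    refine ih w1 w g1 g2 hw1 hw g7 g8 g9 ?_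
    exact Inv.cut_even (lef_pw hX (a + r)) hX (s := s) (by omega) h (by omega) g3 g4 g5 g6

end Pool.Agent.Q8.OL
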