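import Pool.Agent.Q8.OL.Chain

/-!
# The matrix units
-/

open CategoryTheory AlgebraicGeometry

universe u v

namespace Pool.Agent.Q8.OL

open Module
open Pool.Agent.H914 Pool.Agent.H914.VarClass Pool.Agent.H914.VarClass.Obj
  Pool.Agent.H914.WeilCohomology Pool.Agent.Y133.Half Pool.Agent.Q55.Fin Pool.Agent.Q8.KC
  Pool.Agent.TH133.PW Pool.Agent.W536.RR Pool.Agent.H281R3.HT

variable {k : Type u} [Field k] {𝒱 : VarClass k} {ops : CycleOps 𝒱}
  {W : WeilCohomology.{u, v} ops} {X Y : 𝒱.Obj}

/-- The degree of a divisor with hard Lefschetz. -/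
lemma tr_top_ne [Nontrivial (W.H X)] {D : X.Cycles} (hHL : HardLefschetz W X D) :
    W.tr X (W.cl X D ^ X.dim) ≠ 0 := by
  intro h0
  have h1 : (1 : W.H X) = 0 := by
    apply W.nondeg
    intro b
    rw [one_mul]
    refine gr_induction (W.isInternal X) (p := fun b => W.tr X b = 0) ?_ ?_ b
    · intro i b hb
      by_cases hi : i = 2 * X.dim
      · subst hi
        obtain ⟨a, ha, hab⟩ := (hHL 0 (Nat.zero_le _)).2 b (by simpa using hb)
        rw [W.gr_zero, Submodule.mem_span_singleton] at ha
        obtain ⟨c, rfl⟩ := ha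
        rw [Nat.sub_zero, LinearMap.pow_mulLeft, LinearMap.mulLeft_apply, mul_smul_comm,
          mul_one] at hab
        rw [← hab, map_smul, h0, smul_zero]
      · exact W.tr_eq_zero hb hi
    · intro a b ha hb
      rw [map_add, ha, hb, add_zero]
  exact one_ne_zero h1

lemma op_smulK {f : W.H X →ₗ[W.K] W.H Y} (c : W.K) (h : (linS W).Op X Y f) :
    (linS W).Op X Y (c • f) := by
  obtain ⟨d, hd, rfl⟩ := h
  exact ⟨c • d, Submodule.smul_mem _ _ hd, corr_smul W _ d⟩

/-- The units attached to the powers of the divisor. -/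
lemma mu_even {D : X.Cycles} (hD : X.IsCyc 1 D) (h0 : W.tr X (W.cl X D ^ X.dim) ≠ 0) :
    MU W X D 0 X.dim (W.tr X (W.cl X D ^ X.dim))
      (fun l => ((W.tr X) ∘ₗ (LinearMap.mulLeft W.K (W.cl X D ^ (X.dim - l)))).smulRight 1) where
  op l _ := by
    have h1 : (linS W).C X (W.cl X D) := cl_alg hD
    exact ⟨_, (linS W).mul ((linS W).map _ (pow_C h1 (X.dim - l)))
      ((linS W).map _ ((linS W).one X)), corr_uv (b := 0) (W.one_mem X)⟩
  mem l _ y := by
    rw [LinearMap.smulRight_apply]
    exact Submodule.smul_mem _ _ (W.one_mem X)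
  nil l _ := by
    apply LinearMap.ext
    intro y
    rw [Module.End.mul_apply, LinearMap.smulRight_apply, map_smul, LinearMap.pow_mulLeft,
      LinearMap.mulLeft_apply, mul_one, LinearMap.zero_apply]
    have h1 := pow_mem' (W.cl_mem hD) (X.dim + 1)
    rw [W.gr_eq_bot X _ (by omega)] at h1
    rw [(Submodule.mem_bot _).1 h1, smul_zero]
  str l hl l' hl' := by
    have e1 : par (W.isInternal X) * (LD W D ^ l *
        ((W.tr X) ∘ₗ (LinearMap.mulLeft W.K (W.cl X D ^ (X.dim - l')))).smulRight 1) =
        ((W.tr X) ∘ₗ (LinearMap.mulLeft W.K (W.cl X D ^ (X.dim - l')))).smulRight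
          (W.cl X D ^ l) := by
      apply LinearMap.ext
      intro y
      rw [Module.End.mul_apply, Module.End.mul_apply, LinearMap.smulRight_apply,
        LinearMap.smulRight_apply, map_smul, map_smul, LinearMap.pow_mulLeft,
        LinearMap.mulLeft_apply, mul_one, par, scal_apply _ _ (pow_mem' (W.cl_mem hD) l), pow_mul,
        neg_one_sq, one_pow, one_smul]
    rw [KC.str, e1, LinearMap.trace_smulRight, LinearMap.comp_apply, LinearMap.mulLeft_apply,
      ← pow_add]
    split_ifs with h
    · subst h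
      rw [Nat.sub_add_cancel hl]
    · exact W.tr_eq_zero (pow_mem' (W.cl_mem hD) _) (by omega)
  ne := h0

/-- The operator `θ` is the inverse of `D ^ (dim X - e)` on `H ^ e(X)`, and zero on the other
degrees. -/
structure Exact (W : WeilCohomology.{u, v} ops) (X : 𝒱.Obj) (D : X.Cycles) (e : ℕ)
    (θ : Module.End W.K (W.H X)) : Prop where
  op : (linS W).Op X X θ
  inv : ∀ x ∈ W.gr X e, θ ((LD W D ^ (X.dim - e)) x) = x
  zero : ∀ i, i ≠ 2 * X.dim - e → ∀ y ∈ W.gr X i, θ y = 0

lemma Exact.mem {D : X.Cycles} (hHL : HardLefschetz W X D) {e : ℕ} (he : e ≤ X.dim)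
    {θ : Module.End W.K (W.H X)} (h : Exact W X D e θ) (y : W.H X) : θ y ∈ W.gr X e := by
  refine gr_induction (W.isInternal X) (p := fun y => θ y ∈ W.gr X e) ?_ ?_ y
  · intro i b hb
    by_cases hi : i = 2 * X.dim - e
    · subst hi
      obtain ⟨a, ha, hab⟩ := (hHL e he).2 b hb
      rw [← hab]
      have h1 := h.inv a ha
      rw [h1]
      exact ha
    · rw [h.zero i hi b hb]
      exact Submodule.zero_mem _
  · intro a b ha hb
    rw [map_add]
    exact Submodule.add_mem _ ha hb

/-- The units attached to the lowest odd degree. -/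
lemma mu_odd {D : X.Cycles} (hD : X.IsCyc 1 D) (hHL : HardLefschetz W X D) {e : ℕ}
    (he : e ≤ X.dim) (hne : W.gr X e ≠ ⊥) (hbot : W.gr X (2 * X.dim - e + 2) = ⊥)
    {θ : Module.End W.K (W.H X)} (h : Exact W X D e θ) :
    MU W X D e (X.dim - e) ((-1) ^ e * (finrank W.K (W.gr X e) : W.K))
      (fun l => θ * LD W D ^ (X.dim - e - l)) where
  op l _ := h.op.mul (op_pow (op_LD hD) _)
  mem l _ y := h.mem hHL he _
  nil l _ := by
    apply LinearMap.ext
    intro y
    rw [Module.End.mul_apply, LinearMap.zero_apply]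
    have h1 := LD_pow_mem hD (X.dim - e + 1) (a := (e : ℤ))
      (x := (θ * LD W D ^ (X.dim - e - l)) y) (by rw [grZ_natCast]; exact h.mem hHL he _)
    rw [show (e : ℤ) + 2 * ((X.dim - e + 1 : ℕ) : ℤ) = ((2 * X.dim - e + 2 : ℕ) : ℤ) by omega,
      grZ_natCast, hbot] at h1
    exact (Submodule.mem_bot _).1 h1
  str l hl l' hl' := by
    have e1 : LinearMap.trace W.K _ (par (W.isInternal X) *
        (LD W D ^ l * (θ * LD W D ^ (X.dim - e - l')))) =
        LinearMap.trace W.K _ (par (W.isInternal X) * (θ * LD W D ^ (X.dim - e - l' + l))) := by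
      rw [← mul_assoc, par_LD_pow hD, mul_assoc, LinearMap.trace_mul_comm, mul_assoc, mul_assoc,
        ← pow_add]
    have e2 : ∀ r, proj (W.isInternal X) e * (θ * LD W D ^ r) = θ * LD W D ^ r := by
      intro r
      apply LinearMap.ext
      intro y
      rw [Module.End.mul_apply]
      exact proj_same _ (h.mem hHL he ((LD W D ^ r) y))
    have e3 : ∀ r, θ * LD W D ^ r * proj (W.isInternal X) e =
        if r = X.dim - e then proj (W.isInternal X) e else 0 := by
      intro r
      apply LinearMap.ext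
      intro y
      have h2 := proj_mem (W.isInternal X) e y
      split_ifs with hr
      · subst hr
        rw [Module.End.mul_apply, Module.End.mul_apply, h.inv _ h2]
      · rw [Module.End.mul_apply, Module.End.mul_apply, LinearMap.zero_apply]
        have h3 := LD_pow_mem hD r (a := (e : ℤ)) (x := proj (W.isInternal X) e y)
          (by rw [grZ_natCast]; exact h2)
        rw [show (e : ℤ) + 2 * r = ((e + 2 * r : ℕ) : ℤ) by push_cast; ring, grZ_natCast] at h3
        exact h.zero _ (by omega) _ h3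
    rw [KC.str, e1, ← e2, ← mul_assoc, par_mul_proj, smul_mul_assoc, map_smul,
      LinearMap.trace_mul_comm, e3, smul_eq_mul]
    by_cases hll : l = l'
    · subst hll
      rw [if_pos (by omega), if_pos rfl, trace_proj]
    · rw [if_neg (by omega), if_neg hll, map_zero, mul_zero]
  ne := by
    refine mul_ne_zero (pow_ne_zero _ (neg_ne_zero.2 one_ne_zero)) ?_
    have h1 := finrank_ne hne
    intro h2
    apply h1
    have h3 : finrank W.K (W.gr X e) = 0 := by exact_mod_cast h2
    rw [h3, Nat.cast_zero]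

end Pool.Agent.Q8.OL
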