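import Pool.Agent.Q8.OL.Cut

/-!
# The window inequality
-/

open CategoryTheory AlgebraicGeometry

universe u v

namespace Pool.Agent.Q8.OL

open Module
open Pool.Agent.H914 Pool.Agent.H914.VarClass Pool.Agent.H914.VarClass.Obj
  Pool.Agent.H914.WeilCohomology Pool.Agent.Y133.Half Pool.Agent.Q55.Fin Pool.Agent.Q8.KC
  Pool.Agent.TH133.PW Pool.Agent.W536.RR Pool.Agent.H281R3.HT

variable {k : Type u} [Field k] {𝒱 : VarClass k} {ops : CycleOps 𝒱}
  {W : WeilCohomology.{u, v} ops} {X Y : 𝒱.Obj}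

/-- A family of operators `F 0, ..., F β` on `H(X)` with values in `H ^ e(X)`, given by cycles, such
that the supertrace of `D ^ l F l'` is `c` for `l = l'` and zero otherwise (`l, l' ≤ β`), and
`D ^ (β + 1) F l' = 0`. -/
structure MU (W : WeilCohomology.{u, v} ops) (X : 𝒱.Obj) (D : X.Cycles) (e β : ℕ) (c : W.K)
    (F : ℕ → Module.End W.K (W.H X)) : Prop where
  op : ∀ l ≤ β, (linS W).Op X X (F l)
  mem : ∀ l ≤ β, ∀ y, F l y ∈ W.gr X e
  nil : ∀ l ≤ β, LD W D ^ (β + 1) * F l = 0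
  str : ∀ l ≤ β, ∀ l' ≤ β, str W X (LD W D ^ l * F l') = if l = l' then c else 0
  ne : c ≠ 0

lemma op_LD {D : X.Cycles} (hD : X.IsCyc 1 D) : (linS W).Op X X (LD W D) := by
  have h1 : LD W D ∈ KOp W X X 1 := mem_KS_iff.1 (Submodule.subset_span (rop_mulLeft hD))
  refine Submodule.span_induction (p := fun φ _ => (linS W).Op X X φ) ?_ ?_ ?_ ?_ h1
  · rintro _ ⟨q, hq, z, hz, rfl⟩
    exact ⟨_, cl_alg hz, rfl⟩
  · exact QS.Op.zero
  · intro a b _ _ ha hb
    exact ha.add hb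
  · rintro t _ _ ⟨c, hc, rfl⟩
    exact ⟨t • c, Submodule.smul_mem _ _ hc, corr_smul W _ c⟩

lemma op_pow {T : QS W} {f : Module.End W.K (W.H X)} (h : T.Op X X f) (n : ℕ) :
    T.Op X X (f ^ n) := by
  induction n with
  | zero => rw [pow_zero]; exact QS.Op.one
  | succ n ih => rw [pow_succ]; exact ih.mul h

lemma IsPt.smul {f : Module.End W.K (W.H (Y.prod X))} {B : Module.End W.K (W.H Y)} (c : W.K)
    (h : IsPt f B) : IsPt (c • f) (c • B) := by
  intro A
  rw [mul_smul_comm, mul_smul_comm, map_smul, map_smul, h A]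

lemma par_pZ (a : ℤ) : par (W.isInternal Y) * pZ W Y a = pZ W Y a * par (W.isInternal Y) := by
  by_cases ha : a < 0
  · rw [pZ_neg ha, mul_zero, zero_mul]
  · lift a to ℕ using (by omega)
    rw [pZ_cast, par_mul_proj]
    apply gr_ext (W.isInternal Y)
    intro i x hx
    rw [LinearMap.smul_apply, Module.End.mul_apply, par, scal_apply _ _ hx, map_smul]
    by_cases hi : i = a
    · subst hi; rfl
    · rw [proj_ne _ hx hi, smul_zero, smul_zero]

lemma par_LD {B : Y.Cycles} (hB : Y.IsCyc 1 B) :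
    par (W.isInternal Y) * LD W B = LD W B * par (W.isInternal Y) := by
  apply gr_ext (W.isInternal Y)
  intro i x hx
  have h1 : LD W B x ∈ W.gr Y (2 + i) := W.mul_mem (W.cl_mem hB) hx
  rw [Module.End.mul_apply, Module.End.mul_apply, par, scal_apply _ _ h1, scal_apply _ _ hx,
    map_smul, pow_add, neg_one_sq, one_mul]

lemma par_LD_pow {B : Y.Cycles} (hB : Y.IsCyc 1 B) (t : ℕ) :
    par (W.isInternal Y) * LD W B ^ t = LD W B ^ t * par (W.isInternal Y) := by
  have h : Commute (par (W.isInternal Y)) (LD W B) := par_LD hB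
  exact h.pow_right t

/-- The partial traces of the inverse. -/
lemma exists_parts {D : X.Cycles} (hD : X.IsCyc 1 D) {e β : ℕ} {c : W.K}
    {F : ℕ → Module.End W.K (W.H X)} (mu : MU W X D e β c F)
    {θ : Module.End W.K (W.H (Y.prod X))} (hθ : (linS W).Op (Y.prod X) (Y.prod X) θ) :
    ∃ P : ℕ → ℕ → Module.End W.K (W.H Y), (∀ q, ∀ l ≤ β, (linS W).Op Y Y (P q l)) ∧
      (∀ q, ∀ l ≤ β, IsPt (θ * extOp W 1 (LD W D ^ q * F l)) (P q l)) ∧
      ∀ q, β < q → ∀ l ≤ β, P q l = 0 := by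
  have h : ∀ q l, ∃ P : Module.End W.K (W.H Y), l ≤ β → (linS W).Op Y Y P ∧
      IsPt (θ * extOp W 1 (LD W D ^ q * F l)) P := by
    intro q l
    by_cases hl : l ≤ β
    · obtain ⟨P, hP, hPt⟩ := QS.Op.exists_pt (hθ.mul ((QS.Op.one (T := linS W) (X := Y)).ext
        ((op_pow (op_LD hD) q).mul (mu.op l hl))))
      exact ⟨P, fun _ => ⟨hP, hPt⟩⟩
    · exact ⟨0, fun h => absurd h hl⟩
  choose P hP using h
  refine ⟨P, fun q l hl => (hP q l hl).1, fun q l hl => (hP q l hl).2, fun q hq l hl => ?_⟩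
  have h1 := (hP q l hl).2
  have h2 : LD W D ^ q * F l = 0 := by
    obtain ⟨r, rfl⟩ : ∃ r, q = r + (β + 1) := ⟨q - (β + 1), by omega⟩
    rw [pow_add, mul_assoc, mu.nil l hl, mul_zero]
  rw [h2, extOp_zero_right, mul_zero] at h1
  exact h1.unique IsPt.zero

/-- The key identity. -/
lemma key {B : Y.Cycles} {D : X.Cycles} (hB : Y.IsCyc 1 B) (hD : X.IsCyc 1 D) {e β : ℕ} {c : W.K}
    {F : ℕ → Module.End W.K (W.H X)} (mu : MU W X D e β c F)
    {θ : Module.End W.K (W.H (Y.prod X))} {P : ℕ → ℕ → Module.End W.K (W.H Y)}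
    (hP : ∀ q, ∀ l ≤ β, IsPt (θ * extOp W 1 (LD W D ^ q * F l)) (P q l)) {s m : ℕ}
    (hinv : ∀ x ∈ W.gr (Y.prod X) m, θ ((LD W (bs ops B D) ^ s) x) = x) {l l' : ℕ} (hl : l ≤ β)
    (hl' : l' ≤ β) {a : ℤ} (ha : a + (e + 2 * l) = m) :
    ∑ t ∈ Finset.range (s + 1), (s.choose t : W.K) • (P (l + (s - t)) l' * (LD W B ^ t * pZ W Y a))
      = if l = l' then c • pZ W Y a else 0 := by
  have h1 : θ * (LD W (bs ops B D) ^ s * extOp W (pZ W Y a) (LD W D ^ l * F l')) =
      extOp W (pZ W Y a) (LD W D ^ l * F l') := by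
    apply ext_kunneth_lin
    intro x y
    rw [Module.End.mul_apply, Module.End.mul_apply, extOp_tmul]
    refine hinv _ ?_
    by_cases ha0 : a < 0
    · rw [pZ_neg ha0, LinearMap.zero_apply, map_zero, zero_mul]
      exact Submodule.zero_mem _
    · lift a to ℕ using (by omega)
      have h2 : (LD W D ^ l * F l') y ∈ W.gr X (2 * l + e) := by
        rw [Module.End.mul_apply, LinearMap.pow_mulLeft, LinearMap.mulLeft_apply]
        exact W.mul_mem (pow_mem' (W.cl_mem hD) l) (mu.mem l' hl' y)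
      have h3 : a + (2 * l + e) = m := by omega
      rw [← h3]
      exact W.mul_mem (W.map_mem _ (by rw [pZ_cast]; exact proj_mem _ _ _)) (W.map_mem _ h2)
  have h2 : IsPt (extOp W (pZ W Y a) (LD W D ^ l * F l'))
      (∑ t ∈ Finset.range (s + 1),
        (s.choose t : W.K) • (P (l + (s - t)) l' * (LD W B ^ t * pZ W Y a))) := by
    rw [← h1, LD_bs_pow hD, Finset.sum_mul, Finset.mul_sum]
    refine IsPt.sum fun t _ => ?_
    rw [smul_mul_assoc, mul_smul_comm]
    refine IsPt.smul _ ?_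
    have h3 := (hP (l + (s - t)) l' hl').conj (g₁ := 1) (g₂ := LD W B ^ t * pZ W Y a) (by
      rw [← mul_assoc, par_LD_pow hB, mul_assoc, par_pZ, mul_assoc])
    rw [one_mul, extOp_one, one_mul, mul_assoc, extOp_mul, one_mul, mul_one] at h3
    rw [extOp_mul, ← mul_assoc (LD W D ^ (s - t)), ← pow_add, add_comm (s - t) l]
    exact h3
  have h4 := isPt_ext (pZ W Y a) (LD W D ^ l * F l')
  rw [mu.str l hl l' hl'] at h4
  rw [h2.unique h4]
  split_ifs
  · rfl
  · rw [zero_smul]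

end Pool.Agent.Q8.OL
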